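import Pool.Agent.MWNP.Stmts

/-!
Clause c4c of base (h), arbitrary period.
-/

set_option autoImplicit false

namespace Pool.Agent.MWNP.H33

open Pool.Agent.Helper14_MV Pool.Agent.Helper2_MV Pool.Agent.MVO Pool.Agent.MWL Pool.Agent.MWS
  Pool.Agent.MWF Pool.Agent.MWN

/-- three blocks -/
def b3 (x y z : List ℕ) : ℕ → List ℕ :=
  fun j => if j = 0 then x else if j = 1 then y else if j = 2 then z else []

theorem sub' {β : FIC} (g : ℕ → List ℕ) {l l' m m' : List ℕ} (h : RR β l l')
    (e : l.flatMap g = m) (e' : l'.flatMap g = m') : RR β m m' := by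
  rw [← e, ← e']
  exact h.sub g

theorem ctx {β : FIC} (p q : List ℕ) {l l' m m' : List ℕ} (h : RR β l l')
    (e : p ++ l ++ q = m) (e' : p ++ l' ++ q = m') : RR β m m' := by
  rw [← e, ← e']
  exact ((RR.refl p).append h).append (RR.refl q)

theorem tr {β : FIC} {l m n : List ℕ} (h : RR β l m) (h' : RR β m n) : RR β l n := β.trans h h'

/-- delete `3`, rename `4` to `3` -/
def gd (c : ℕ) : List ℕ := if c = 3 then [] else if c = 4 then [3] else [c]

/-- replace `3` by `m` letters `0`, rename `4` to `3` -/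
def gm (m c : ℕ) : List ℕ := if c = 3 then List.replicate m 0 else if c = 4 then [3] else [c]

/-- put `m` letters `0` in front of `2` -/
def g2 (m c : ℕ) : List ℕ := if c = 2 then List.replicate m 0 ++ [2] else [c]

theorem rep_one (m : ℕ) (q : List ℕ) :
    List.replicate m 0 ++ 0 :: q = List.replicate (m + 1) 0 ++ q := by
  induction m with
  | zero => rfl
  | succ m ih =>
    rw [List.replicate_succ, List.cons_append, ih, List.replicate_succ (n := m + 1)]
    rfl

theorem rep_cons (m : ℕ) (q : List ℕ) :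
    0 :: (List.replicate m 0 ++ q) = List.replicate (m + 1) 0 ++ q := by
  rw [List.replicate_succ]
  rfl

theorem flat_rep (g : ℕ → List ℕ) (h : g 0 = [0]) (m : ℕ) :
    (List.replicate m 0).flatMap g = List.replicate m 0 := by
  induction m with
  | zero => rfl
  | succ m ih => rw [List.replicate_succ, List.flatMap_cons, ih, h]; rfl

theorem two_b3 {x y z : List ℕ} (h : ∀ c ∈ x ++ (y ++ z), c = 0 ∨ c = 1) : Two01 2 (b3 x y z) := by
  intro j hj c hc
  have h1 : j = 0 ∨ j = 1 ∨ j = 2 := by omega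
  rcases h1 with rfl | rfl | rfl
  · exact h c (List.mem_append_left _ hc)
  · exact h c (List.mem_append_right _ (List.mem_append_left _ hc))
  · exact h c (List.mem_append_right _ (List.mem_append_right _ hc))

theorem ok_b3 {x y z : List ℕ} (h : ∀ c ∈ x ++ (y ++ z), c = 0 ∨ c = 1)
    (h0 : 2 ≤ deg 2 (ty (b3 x y z) 0)) (h1 : 2 ≤ deg 2 (ty (b3 x y z) 1)) :
    OkB 2 (b3 x y z) := by
  refine ⟨fun j hj c hc => ?_, fun j hj c hc => ?_⟩
  · have := two_b3 h j hj c hc
    unfold NS
    omega
  · rcases two_b3 h j hj c hc with rfl | rfl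
    · exact h0
    · exact h1

theorem deg_b3 (x y z : List ℕ) (c : ℕ) :
    deg 2 (ty (b3 x y z) c) = x.count c + y.count c + z.count c := by
  unfold deg
  rw [Finset.sum_range_succ, Finset.sum_range_succ, Finset.sum_range_succ, Finset.sum_range_zero]
  simp [ty, b3]

theorem asm_b3 (x y z : List ℕ) : asm 2 (b3 x y z) = x ++ 2 :: (y ++ 3 :: z) := by
  simp [asm, b3]

theorem sh_b3 {n : ℕ} {a b : ℕ → ℕ} (h : ∀ j < 3, a j = b j) : Shn n 2 a b :=
  fun j hj => Or.inl (h j (by omega))

theorem mw_ad2 (n : ℕ) (a : ℕ → ℕ) : mw 2 (ad n a 2) = mw 2 a ++ List.replicate (2 * n) 0 := by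
  have h0 : ad n a 2 0 = a 0 := by simp [ad]
  have h1 : ad n a 2 1 = a 1 := by simp [ad]
  have h2 : ad n a 2 2 = a 2 + 2 * n := by simp [ad]
  simp only [mw, asm, zero_add, Nat.reduceAdd, h0, h1, h2]
  rw [List.replicate_add]
  simp only [List.append_assoc, List.cons_append]

theorem mw_ad0 (n : ℕ) (a : ℕ → ℕ) : mw 2 (ad n a 0) = List.replicate (2 * n) 0 ++ mw 2 a := by
  have h0 : ad n a 0 0 = 2 * n + a 0 := by simp [ad, add_comm]
  have h1 : ad n a 0 1 = a 1 := by simp [ad]
  have h2 : ad n a 0 2 = a 2 := by simp [ad]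
  simp only [mw, asm, zero_add, Nat.reduceAdd, h0, h1, h2]
  rw [List.replicate_add]
  simp only [List.append_assoc]

theorem wE {n : ℕ} {β : FIC} (h : Op n β Bit.E) :
    RR β [0, 0, 2] ([0, 0, 2] ++ List.replicate (2 * n) 0) := by
  have h1 : RR β (mw 1 (v2 2 0)) (mw 1 (ad n (v2 2 0) 1)) := h
  have e1 : mw 1 (v2 2 0) = [0, 0, 2] := by decide
  have e2 : mw 1 (ad n (v2 2 0) 1) = [0, 0, 2] ++ List.replicate (2 * n) 0 := by
    simp [mw, asm, ad, v2, List.replicate]
  rwa [e1, e2] at h1

theorem wG {n : ℕ} {β : FIC} (h : Op n β Bit.G) :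
    RR β [2, 0, 0] (List.replicate (2 * n) 0 ++ [2, 0, 0]) := by
  have h1 : RR β (mw 1 (v2 0 2)) (mw 1 (ad n (v2 0 2) 0)) := h
  have e1 : mw 1 (v2 0 2) = [2, 0, 0] := by decide
  have e2 : mw 1 (ad n (v2 0 2) 0) = List.replicate (2 * n) 0 ++ [2, 0, 0] := by
    simp [mw, asm, ad, v2, List.replicate]
  rwa [e1, e2] at h1

theorem e120 {n : ℕ} {β : FIC} (hE : Op n β Bit.E) {a : ℕ → ℕ} (h : mw 2 a = [0, 2, 0, 0, 3]) :
    Ab n (FC.ofFIC β) 2 a 2 := by
  have h3 : RR β (mw 2 a) (mw 2 (ad n a 2)) := by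
    rw [mw_ad2, h]
    refine ctx [0, 2] [] (sub' (fun c => if c = 2 then [3] else [c]) (wE hE) rfl rfl) rfl ?_
    rw [List.flatMap_append, flat_rep _ rfl]
    simp
  exact h3

theorem e220 {n : ℕ} {β : FIC} (hE : Op n β Bit.E) {a : ℕ → ℕ}
    (h : mw 2 a = [0, 0, 2, 0, 0, 3]) : Ab n (FC.ofFIC β) 2 a 2 := by
  have h3 : RR β (mw 2 a) (mw 2 (ad n a 2)) := by
    rw [mw_ad2, h]
    refine ctx [0, 0, 2] [] (sub' (fun c => if c = 2 then [3] else [c]) (wE hE) rfl rfl) rfl ?_
    rw [List.flatMap_append, flat_rep _ rfl]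
    simp
  exact h3

theorem g020 {n : ℕ} {β : FIC} (hG : Op n β Bit.G) {a : ℕ → ℕ} (h : mw 2 a = [2, 0, 0, 3]) :
    Ab n (FC.ofFIC β) 2 a 0 := by
  have h3 : RR β (mw 2 a) (mw 2 (ad n a 0)) := by
    rw [mw_ad0, h]
    exact ctx [] [3] (wG hG) rfl (by simp)
  exact h3

theorem p4c (hp : PphStmt) (hx : PcxStmt) (ho : PcoStmt) (hd : PddStmt) : P4cStmt := by
  intro n β H hi hm hJ
  by_contra hc
  have hn := H.pos
  obtain ⟨hd1, hd2⟩ := hd n β H
  -- `2 n + 2` letters `0` are the same as two letters `0`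
  have kf : ∀ (p q : List ℕ), RR β (p ++ (List.replicate (2 * n + 2) 0 ++ q)) (p ++ 0 :: 0 :: q) :=
    fun p q => hd2 p q 0 (2 * n + 2) 2 (by omega) le_rfl (by
      show (2 * n + 2) % n = 2 % n
      rw [Nat.add_comm, Nat.mul_comm, Nat.add_mul_mod_self_left])
  -- the substitution for the second alternative
  have km : ∀ (p p' : List ℕ), (∀ c ∈ p, c ≠ 3 ∧ c ≠ 4) → (∀ c ∈ p', c ≠ 3 ∧ c ≠ 4) →
      RR β (p ++ [0, 0, 3, 0, 0, 4, 1]) (p' ++ [0, 0, 3, 0, 0, 4, 1]) →
        RR β (p ++ [0, 0, 3, 1]) (p' ++ [0, 0, 3, 1]) := by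
    intro p p' hp3 hp3' h
    have hflat : ∀ p : List ℕ, (∀ c ∈ p, c ≠ 3 ∧ c ≠ 4) →
        (p ++ [0, 0, 3, 0, 0, 4, 1]).flatMap (gm (2 * n - 2)) =
          p ++ (List.replicate (2 * n + 2) 0 ++ [3, 1]) := by
      intro p hp
      have h1 : p.flatMap (gm (2 * n - 2)) = p := by
        induction p with
        | nil => rfl
        | cons x p ih =>
          rw [List.flatMap_cons, ih (fun c hc => hp c (List.mem_cons_of_mem _ hc))]
          have := hp x List.mem_cons_self
          unfold gm
          rw [if_neg this.1, if_neg this.2]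
          rfl
      rw [List.flatMap_append, h1]
      congr 1
      have h2 : [0, 0, 3, 0, 0, 4, 1].flatMap (gm (2 * n - 2)) =
          0 :: 0 :: (List.replicate (2 * n - 2) 0 ++ 0 :: 0 :: [3, 1]) := by
        simp [gm]
      rw [h2, rep_one, rep_one, rep_cons, rep_cons]
      have : 2 * n - 2 + 1 + 1 + 1 + 1 = 2 * n + 2 := by omega
      rw [this]
    have h1 := sub' (gm (2 * n - 2)) h (hflat p hp3) (hflat p' hp3')
    exact tr (RR.symm (kf p [3, 1])) (tr h1 (kf p' [3, 1]))
  by_cases hD : Op n β (Bit.D 0)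
  · -- the case `D 0`
    have key : ∀ st, C3c β st := by
      intro st
      by_contra h3
      have hE : ¬ Op n β Bit.E := by
        intro hE
        apply h3
        cases st
        · exact ho n β H hi 2 (b3 [0, 0, 1] [0, 0] [1]) (b3 [0, 1, 0] [0, 0] [1]) 0 1 2
            (ok_b3 (by decide) (by decide) (by decide)) (ok_b3 (by decide) (by decide) (by decide))
            (two_b3 (by decide)) (two_b3 (by decide)) (sh_b3 (by decide)) (sh_b3 (by decide))
            (Or.inl ⟨rfl, rfl⟩) le_rfl (by decide) (by decide) (by decide)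
            (e220 hE (by decide))
        · exact ho n β H hi 2 (b3 [1, 0, 0] [0, 0] [1]) (b3 [0, 1, 0] [0, 0] [1]) 0 1 2
            (ok_b3 (by decide) (by decide) (by decide)) (ok_b3 (by decide) (by decide) (by decide))
            (two_b3 (by decide)) (two_b3 (by decide)) (sh_b3 (by decide)) (sh_b3 (by decide))
            (Or.inl ⟨rfl, rfl⟩) le_rfl (by decide) (by decide) (by decide)
            (e220 hE (by decide))
      have hG : ¬ Op n β Bit.G := by
        intro hG
        apply h3
        cases st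
        · exact ho n β H hi 2 (b3 [0, 0, 1] [0, 0] [1]) (b3 [0, 1, 0] [0, 0] [1]) 0 1 0
            (ok_b3 (by decide) (by decide) (by decide)) (ok_b3 (by decide) (by decide) (by decide))
            (two_b3 (by decide)) (two_b3 (by decide)) (sh_b3 (by decide)) (sh_b3 (by decide))
            (Or.inl ⟨rfl, rfl⟩) (Nat.zero_le _) (by decide) (by decide) (by decide)
            (g020 hG (by decide))
        · exact ho n β H hi 2 (b3 [1, 0, 0] [0, 0] [1]) (b3 [0, 1, 0] [0, 0] [1]) 0 1 0
            (ok_b3 (by decide) (by decide) (by decide)) (ok_b3 (by decide) (by decide) (by decide))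
            (two_b3 (by decide)) (two_b3 (by decide)) (sh_b3 (by decide)) (sh_b3 (by decide))
            (Or.inl ⟨rfl, rfl⟩) (Nat.zero_le _) (by decide) (by decide) (by decide)
            (g020 hG (by decide))
      have hA1 : Clo β 3 (cd4 Cd.one Cd.one Cd.one Cd.z) := hx n β H hi [8, 10] 3 _
        (by
          intro x hx
          simp only [List.mem_cons, List.not_mem_nil, or_false] at hx
          tauto) (by decide +kernel)
      have hB1 : Clo β 3 (cd4 Cd.one Cd.z Cd.z Cd.one) := hx n β H hi [8] 3 _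
        (by
          intro x hx
          simp only [List.mem_cons, List.not_mem_nil, or_false] at hx
          tauto) (by decide +kernel)
      have hA2 : Clo β 3 (cd4 Cd.pos Cd.any Cd.any Cd.z) := hx n β H hi [8, 10, 0, 2] 3 _
        (by
          intro x hx
          simp only [List.mem_cons, List.not_mem_nil, or_false] at hx
          tauto) (by decide +kernel)
      rcases hp n β H hi hm 3 0 (cd4 Cd.one Cd.one Cd.one Cd.z) (cd4 Cd.one Cd.z Cd.z Cd.one)
        (cd4 Cd.pos Cd.any Cd.any Cd.z) (cd4 Cd.one Cd.z Cd.z Cd.one) st (v4 2 2 2 0)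
        (v4 1 1 1 0) (v4 1 0 0 1) (v4 1 0 0 1) (by decide +kernel) (by decide) (by decide)
        (by decide) (by decide) hA1 hB1 hA2 hB1 with h | h
      · apply hc
        cases st
        · have h1 : RR β [0, 1, 2, 0, 3, 0, 4, 1] [1, 0, 2, 0, 3, 0, 4, 1] := h
          exact sub' gd h1 rfl rfl
        · have h1 : RR β [1, 0, 2, 0, 3, 0, 4, 1] [0, 1, 2, 0, 3, 0, 4, 1] := h
          exact sub' gd h1.symm rfl rfl
      · apply h3
        cases st
        · have h1 : RR β [0, 0, 1, 2, 0, 0, 3, 0, 0, 4, 1] [0, 1, 0, 2, 0, 0, 3, 0, 0, 4, 1] := h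
          exact km [0, 0, 1, 2] [0, 1, 0, 2] (by decide) (by decide) h1
        · have h1 : RR β [1, 0, 0, 2, 0, 0, 3, 0, 0, 4, 1] [0, 1, 0, 2, 0, 0, 3, 0, 0, 4, 1] := h
          exact km [1, 0, 0, 2] [0, 1, 0, 2] (by decide) (by decide) h1
    apply hc
    have e1 : 2 * n - 1 + 1 = 2 * n := by omega
    have e2 : 2 * n - 1 + 1 + 1 = 2 * n + 1 := by omega
    have s1 : RR β [0, 1, 2, 0, 0, 3, 1] (List.replicate (2 * n + 1) 0 ++ [1, 2, 0, 0, 3, 1]) :=
      hd1 hD [] [1, 2] [3, 1] 0
    have s2 : RR β (List.replicate (2 * n + 1) 0 ++ [1, 2, 0, 0, 3, 1])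
        (List.replicate (2 * n) 0 ++ [1, 0, 2, 0, 0, 3, 1]) := by
      have h : RR β [0, 0, 1, 2, 0, 0, 3, 1] [0, 1, 0, 2, 0, 0, 3, 1] := key false
      refine ctx (List.replicate (2 * n - 1) 0) [] h ?_ ?_
      · rw [List.append_nil, rep_one, rep_one, e2]
      · rw [List.append_nil, rep_one, e1]
    have s3 : RR β (List.replicate (2 * n) 0 ++ [1, 0, 2, 0, 0, 3, 1])
        ([0, 1] ++ (List.replicate (2 * n) 0 ++ [2, 0, 0, 3, 1])) := by
      have hrep : ∀ c ∈ List.replicate (2 * n) 0, c = 0 := fun c hc => List.eq_of_mem_replicate hc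
      have hm0 : (0 : ℕ) ∈ List.replicate (2 * n) 0 := by
        rw [List.mem_replicate]
        exact ⟨by omega, rfl⟩
      have hx0 : ∀ c ∈ (List.replicate (2 * n) 0 ++ [1, 0]) ++ ([0, 0] ++ [1]), c = 0 ∨ c = 1 := by
        intro c hc
        simp only [List.mem_append, List.mem_cons, List.not_mem_nil, or_false] at hc
        rcases hc with (hc | hc | hc) | (hc | hc) | hc
        · exact Or.inl (hrep c hc)
        · exact Or.inr hc
        · exact Or.inl hc
        · exact Or.inl hc
        · exact Or.inl hc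
        · exact Or.inr hc
      have hy0 : ∀ c ∈ ([0, 1] ++ List.replicate (2 * n) 0) ++ ([0, 0] ++ [1]), c = 0 ∨ c = 1 := by
        intro c hc
        simp only [List.mem_append, List.mem_cons, List.not_mem_nil, or_false] at hc
        rcases hc with ((hc | hc) | hc) | (hc | hc) | hc
        · exact Or.inl hc
        · exact Or.inr hc
        · exact Or.inl (hrep c hc)
        · exact Or.inl hc
        · exact Or.inl hc
        · exact Or.inr hc
      have c0 : (List.replicate (2 * n) 0 ++ [1, 0]).count 0 =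
          ([0, 1] ++ List.replicate (2 * n) 0).count 0 := by
        simp only [List.count_append]
        rw [add_comm]
        rfl
      have c1 : (List.replicate (2 * n) 0 ++ [1, 0]).count 1 =
          ([0, 1] ++ List.replicate (2 * n) 0).count 1 := by
        simp only [List.count_append]
        rw [add_comm]
        rfl
      have k1 : List.Sublist [1, 0] (List.replicate (2 * n) 0 ++ [1, 0]) :=
        List.sublist_append_right _ _
      have k2 : List.Sublist [0, 1] (List.replicate (2 * n) 0 ++ [1, 0]) :=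
        (List.singleton_sublist.mpr hm0).append (l₁ := [0]) (r₁ := [1])
          (List.singleton_sublist.mpr (by decide))
      have k3 : List.Sublist [0, 1] ([0, 1] ++ List.replicate (2 * n) 0) :=
        List.sublist_append_left _ _
      have k4 : List.Sublist [1, 0] ([0, 1] ++ List.replicate (2 * n) 0) :=
        (List.singleton_sublist.mpr (by decide : (1 : ℕ) ∈ [0, 1])).append (l₁ := [1]) (r₁ := [0])
          (List.singleton_sublist.mpr hm0)
      have h := H.hst 2 (b3 (List.replicate (2 * n) 0 ++ [1, 0]) [0, 0] [1])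
        (b3 ([0, 1] ++ List.replicate (2 * n) 0) [0, 0] [1])
        (ok_b3 hx0 (by rw [deg_b3]; simp) (by rw [deg_b3]; simp))
        (ok_b3 hy0 (by rw [deg_b3]; simp) (by rw [deg_b3]; simp))
        (two_b3 hx0) (two_b3 hy0)
        (sh_b3 (by
          intro j hj
          interval_cases j
          · exact c0
          · rfl
          · rfl))
        (sh_b3 (by
          intro j hj
          interval_cases j
          · exact c1
          · rfl
          · rfl)) (by
          intro i hi hc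
          by_cases h0 : i = 0
          · subst h0
            refine ⟨?_, ?_⟩
            · refine ⟨fun h => absurd k1 h, fun h => absurd k4 h⟩
            · refine ⟨fun h => absurd k2 h, fun h => absurd k3 h⟩
          · exfalso
            rcases hc 0 (by omega) (Ne.symm h0) with h | h
            · exact h (k1.subset (by decide))
            · exact h (k1.subset (by decide)))
      rw [asm_b3, asm_b3] at h
      refine ctx [] [] h ?_ ?_
      · simp
      · simp
    have s4 : RR β ([1] ++ (List.replicate (2 * n + 1) 0 ++ [2, 0, 0, 3, 1]))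
        ([0, 1] ++ (List.replicate (2 * n) 0 ++ [2, 0, 0, 3, 1])) := by
      have h : RR β [1, 0, 0, 2, 0, 0, 3, 1] [0, 1, 0, 2, 0, 0, 3, 1] := key true
      refine sub' (g2 (2 * n - 1)) h ?_ ?_
      · have h1 : [1, 0, 0, 2, 0, 0, 3, 1].flatMap (g2 (2 * n - 1)) =
            1 :: 0 :: 0 :: (List.replicate (2 * n - 1) 0 ++ [2, 0, 0, 3, 1]) := by simp [g2]
        rw [h1, rep_cons, rep_cons, e2]
        rfl
      · have h1 : [0, 1, 0, 2, 0, 0, 3, 1].flatMap (g2 (2 * n - 1)) =
            0 :: 1 :: 0 :: (List.replicate (2 * n - 1) 0 ++ [2, 0, 0, 3, 1]) := by simp [g2]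
        rw [h1, rep_cons, e1]
        rfl
    have s5 : RR β [1, 0, 2, 0, 0, 3, 1]
        ([1] ++ (List.replicate (2 * n + 1) 0 ++ [2, 0, 0, 3, 1])) := hd1 hD [1] [2] [3, 1] 0
    exact tr s1 (tr s2 (tr s3 (tr s4.symm s5.symm)))
  · -- the case without `D 0`
    have hE : ¬ Op n β Bit.E := by
      intro hE
      apply hc
      exact ho n β H hi 2 (b3 [0, 1] [0, 0] [1]) (b3 [1, 0] [0, 0] [1]) 0 1 2
        (ok_b3 (by decide) (by decide) (by decide)) (ok_b3 (by decide) (by decide) (by decide))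
        (two_b3 (by decide)) (two_b3 (by decide)) (sh_b3 (by decide)) (sh_b3 (by decide))
        (Or.inl ⟨rfl, rfl⟩) le_rfl (by decide) (by decide) (by decide)
        (e120 hE (by decide))
    have hA1 : Clo β 3 (cd4 Cd.one Cd.one Cd.one Cd.z) := hx n β H hi [8, 10] 3 _
      (by
        intro x hx
        simp only [List.mem_cons, List.not_mem_nil, or_false] at hx
        tauto) (by decide +kernel)
    have hB1 : Clo β 3 (cd4 Cd.one Cd.z Cd.z Cd.one) := hx n β H hi [8] 3 _
      (by
        intro x hx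
        simp only [List.mem_cons, List.not_mem_nil, or_false] at hx
        tauto) (by decide +kernel)
    have hA2 : Clo β 3 (cd4 Cd.one Cd.any Cd.any Cd.z) := hx n β H hi [8, 10, 3, 0] 3 _
      (by
        intro x hx
        simp only [List.mem_cons, List.not_mem_nil, or_false] at hx
        tauto) (by decide +kernel)
    apply hc
    rcases hp n β H hi hm 3 0 (cd4 Cd.one Cd.one Cd.one Cd.z) (cd4 Cd.one Cd.z Cd.z Cd.one)
      (cd4 Cd.one Cd.any Cd.any Cd.z) (cd4 Cd.one Cd.z Cd.z Cd.one) false (v4 1 2 2 0)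
      (v4 1 1 1 0) (v4 1 0 0 1) (v4 1 0 0 1) (by decide +kernel) (by decide) (by decide)
      (by decide) (by decide) hA1 hB1 hA2 hB1 with h | h
    · have h1 : RR β [0, 1, 2, 0, 3, 0, 4, 1] [1, 0, 2, 0, 3, 0, 4, 1] := h
      exact sub' gd h1 rfl rfl
    · have h1 : RR β [0, 1, 2, 0, 0, 3, 0, 0, 4, 1] [1, 0, 2, 0, 0, 3, 0, 0, 4, 1] := h
      exact km [0, 1, 2] [1, 0, 2] (by decide) (by decide) h1

end Pool.Agent.MWNP.H33
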